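import Mathlib
import Pool.Agent.Q241.OuterFrames
import Pool.Agent.Q241.SparseExp

/-!
# Outerplanar graphs have distance number at most eight
-/

namespace Pool.Agent.Results.MP_4dd93e_co.AtMostEight

open Polynomial Pool.Agent.Q241.OuterFrames Pool.Agent.Q241.SparseExp Pool.Agent.Q241.AbelWord

/-- The plane. -/
abbrev Plane : Type := EuclideanSpace ℝ (Fin 2)

/-- `G` is outerplanar: its vertices can be placed on a circle (in the order given by `f`) such
that no two edges, drawn as chords, cross. -/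
def IsOuterplanar {V : Type} (G : SimpleGraph V) : Prop :=
  ∃ f : V → ℤ, Function.Injective f ∧ ∀ a b c d : V, G.Adj a c → G.Adj b d →
    ¬ (f a < f b ∧ f b < f c ∧ f c < f d)

/-- A drawing: the vertices are drawn as distinct points and no vertex lies in the relative
interior of an edge segment. -/
def IsDrawing {V : Type} (G : SimpleGraph V) (p : V → Plane) : Prop :=
  Function.Injective p ∧ ∀ v w : V, G.Adj v w → ∀ u : V, p u ∉ openSegment ℝ (p v) (p w)

/-- The set of edge lengths of the drawing `p`. -/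
def lengths {V : Type} (G : SimpleGraph V) (p : V → Plane) : Set ℝ :=
  {x | ∃ v w : V, G.Adj v w ∧ x = dist (p v) (p w)}

/-- The distance number. -/
noncomputable def dn {V : Type} (G : SimpleGraph V) : ℕ :=
  sInf {k | ∃ p : V → Plane, IsDrawing G p ∧ (lengths G p).ncard = k}

theorem exists_transcendental : ∃ z : ℂ, ‖z‖ = 1 ∧ Transcendental ℤ z := by
  by_contra hcon
  push Not at hcon
  have hcount : {x : ℂ | IsAlgebraic ℤ x}.Countable := Algebraic.countable ℤ ℂ
  have hsub : (fun t : ℝ => Complex.exp (t * Complex.I)) '' (Set.Ioo 0 1) ⊆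
      {x : ℂ | IsAlgebraic ℤ x} := by
    rintro _ ⟨t, _, rfl⟩
    have := hcon _ (Complex.norm_exp_ofReal_mul_I t)
    unfold Transcendental at this
    exact not_not.mp this
  have hinj : Set.InjOn (fun t : ℝ => Complex.exp (t * Complex.I)) (Set.Ioo 0 1) := by
    intro s hs t ht hst
    have h1 : Real.cos s = Real.cos t := by
      have := congrArg Complex.re hst
      simpa [Complex.exp_ofReal_mul_I_re] using this
    have hpi := Real.pi_gt_three
    exact Real.injOn_cos ⟨hs.1.le, by linarith [hs.2]⟩ ⟨ht.1.le, by linarith [ht.2]⟩ h1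
  have h2 : (Set.Ioo (0 : ℝ) 1).Countable := by
    have := hcount.mono hsub
    exact (Set.countable_of_injective_of_countable_image hinj this)
  rw [Cardinal.Real.Ioo_countable_iff] at h2
  linarith

/-- The possible lengths. -/
noncomputable def lenSet (K : ℕ) (z : ℂ) : Finset ℝ :=
  insert 1 ((Finset.range 7).image (fun x => ‖1 - z ^ (K ^ x)‖))

theorem lenSet_card (K : ℕ) (z : ℂ) : (lenSet K z).card ≤ 8 := by
  unfold lenSet
  refine le_trans (Finset.card_insert_le _ _) ?_
  have := Finset.card_image_le (s := Finset.range 7) (f := fun x => ‖1 - z ^ (K ^ x)‖)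
  rw [Finset.card_range] at this
  omega

theorem good_natDegree {d : ℤ[X]} (hd : Good d) {T : ℕ} (hT : d.natDegree ≤ T) :
    ∃ m : ℕ, (m ≤ T ∧ (d = X ^ m ∨ d = -X ^ m)) ∨
      (m + 1 ≤ T ∧ (d = X ^ m * (1 - X) ∨ d = -(X ^ m * (1 - X)))) := by
  obtain ⟨m, h⟩ := hd
  have hn : (X ^ m * (1 - X) : ℤ[X]).natDegree = m + 1 := by
    have h1 : (X ^ m * (1 - X) : ℤ[X]) = -(X ^ m * (X - C 1)) := by
      rw [C_1]; ring
    rw [h1, natDegree_neg, natDegree_mul (pow_ne_zero _ X_ne_zero) (X_sub_C_ne_zero 1),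
      natDegree_X_pow, natDegree_X_sub_C]
  refine ⟨m, ?_⟩
  rcases h with h | h | h | h
  · left
    rw [h, natDegree_X_pow] at hT
    exact ⟨hT, Or.inl h⟩
  · left
    rw [h, natDegree_neg, natDegree_X_pow] at hT
    exact ⟨hT, Or.inr h⟩
  · right
    rw [h, hn] at hT
    exact ⟨hT, Or.inl h⟩
  · right
    rw [h, natDegree_neg, hn] at hT
    exact ⟨hT, Or.inr h⟩

theorem norm_hat_good {K T : ℕ} {z : ℂ} (hz : ‖z‖ = 1) {d : ℤ[X]}
    (hd : Good d) (hT : d.natDegree ≤ T) : ‖aeval z (hat K T d)‖ ∈ lenSet K z := by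
  have key : ∀ m, m + 1 ≤ T → ‖aeval z (hat K T (X ^ m * (1 - X)))‖ ∈ lenSet K z := by
    intro m hm
    have h1 : (X : ℤ[X]) ^ m * (1 - X) = X ^ m - X ^ (m + 1) := by rw [pow_succ]; ring
    rw [h1, hat_sub, hat_X_pow (by omega), hat_X_pow hm, map_sub, map_pow, map_pow, aeval_X,
      E_succ, pow_add]
    have h2 : z ^ E K m - z ^ E K m * z ^ K ^ (w m).val = z ^ E K m * (1 - z ^ K ^ (w m).val) := by
      ring
    rw [h2, norm_mul, norm_pow, hz, one_pow, one_mul]
    unfold lenSet
    rw [Finset.mem_insert, Finset.mem_image]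
    exact Or.inr ⟨(w m).val, val_mem _, rfl⟩
  have key1 : ∀ m, m ≤ T → ‖aeval z (hat K T (X ^ m))‖ ∈ lenSet K z := by
    intro m hm
    rw [hat_X_pow hm, map_pow, aeval_X, norm_pow, hz, one_pow]
    unfold lenSet
    rw [Finset.mem_insert]
    exact Or.inl rfl
  obtain ⟨m, ⟨hm, h | h⟩ | ⟨hm, h | h⟩⟩ := good_natDegree hd hT
  · rw [h]; exact key1 m hm
  · rw [h, hat_neg, map_neg, norm_neg]; exact key1 m hm
  · rw [h]; exact key m hm
  · rw [h, hat_neg, map_neg, norm_neg]; exact key m hm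

theorem not_between {K T : ℕ} (hK : 2 * T < K) {z : ℂ} (hz : ‖z‖ = 1)
    (htr : Transcendental ℤ z) (D d : ℤ[X]) (hd : Good d) (hT : d.natDegree ≤ T) {b : ℝ}
    (hb0 : 0 < b) (hb1 : b < 1) (h : aeval z (hat K T D) = (b : ℂ) * aeval z (hat K T d)) :
    False := by
  obtain ⟨m, ⟨hm, h1 | h1⟩ | ⟨hm, h1 | h1⟩⟩ := good_natDegree hd hT
  · rw [h1] at h
    exact real_one hK hz htr D hm hb0 hb1 h
  · rw [h1, hat_neg, map_neg] at h
    refine real_one hK hz htr (-D) hm hb0 hb1 ?_
    rw [hat_neg, map_neg, h]; ring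
  · rw [h1] at h
    exact real_two hK hz htr D hm hb0 hb1 h
  · rw [h1, hat_neg, map_neg] at h
    refine real_two hK hz htr (-D) hm hb0 hb1 ?_
    rw [hat_neg, map_neg, h]; ring

theorem main (V : Type) [Fintype V] (G : SimpleGraph V) (hG : IsOuterplanar G) :
    ∃ p : V → Plane, IsDrawing G p ∧ (lengths G p).ncard ≤ 8 := by
  classical
  obtain ⟨f, hf, hcr⟩ := hG
  obtain ⟨z, hz, htr⟩ := exists_transcendental
  set H : SimpleGraph ℤ := G.map (⟨f, hf⟩ : V ↪ ℤ) with hH
  have hNC : NC H := by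
    intro a b c d h1 h2 h3 h4 h5
    rw [hH, SimpleGraph.map_adj] at h4 h5
    obtain ⟨u, v, huv, rfl, rfl⟩ := h4
    obtain ⟨x, y, hxy, rfl, rfl⟩ := h5
    exact hcr u x v y huv hxy ⟨h1, h2, h3⟩
  obtain ⟨M, hM⟩ : ∃ M : ℕ, ∀ v, -(M : ℤ) < f v ∧ f v < M := by
    refine ⟨(Finset.univ.sup fun v => (f v).natAbs) + 1, ?_⟩
    intro v
    have h1 : (f v).natAbs ≤ Finset.univ.sup fun v => (f v).natAbs :=
      Finset.le_sup (f := fun v => (f v).natAbs) (Finset.mem_univ v)
    push_cast
    omega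
  obtain ⟨g, hg⟩ := exists_emb (2 * M) H hNC (-(M : ℤ)) false false
  have hend : -(M : ℤ) + ((2 * M : ℕ) : ℤ) + 1 = M + 1 := by push_cast; ring
  rw [hend] at hg
  -- the degree bound and the base
  obtain ⟨T, hT⟩ : ∃ T : ℕ, ∀ v, (g (f v)).natDegree ≤ T :=
    ⟨Finset.univ.sup fun v => (g (f v)).natDegree, fun v =>
      Finset.le_sup (f := fun v => (g (f v)).natDegree) (Finset.mem_univ v)⟩
  obtain ⟨K, hK⟩ : ∃ K : ℕ, 2 * T < K := ⟨2 * T + 1, Nat.lt_succ_self _⟩
  have hK1 : 1 ≤ K := by omega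
  have hdeg : ∀ u v, (g (f u) - g (f v)).natDegree ≤ T := fun u v =>
    le_trans (natDegree_sub_le _ _) (max_le (hT u) (hT v))
  set φ : ℂ ≃ₗᵢ[ℝ] Plane := Complex.orthonormalBasisOneI.repr with hφ
  set P : V → ℂ := fun v => aeval z (hat K T (g (f v))) with hP
  set p : V → Plane := fun v => φ (P v) with hp
  have hsubP : ∀ u v, P u - P v = aeval z (hat K T (g (f u) - g (f v))) := by
    intro u v
    rw [hat_sub, map_sub]
  have hPinj : Function.Injective P := by
    intro u v huv
    have h1 : aeval z (hat K T (g (f u) - g (f v))) = 0 := by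
      rw [← hsubP, huv, sub_self]
    have h2 : hat K T (g (f u) - g (f v)) = 0 := by
      by_contra hne
      exact htr ⟨_, hne, h1⟩
    have h3 : g (f u) - g (f v) = 0 := by
      ext k
      by_cases hk : k ≤ T
      · rw [← coeff_hat_E hK1 _ hk, h2]; simp
      · rw [coeff_eq_zero_of_natDegree_lt (lt_of_le_of_lt (hdeg u v) (by omega))]; simp
    exact hf (hg.inj _ _ (hM u).1 (by linarith [(hM u).2]) (hM v).1 (by linarith [(hM v).2])
      (sub_eq_zero.mp h3))
  have hgoodlt : ∀ v w : V, G.Adj v w → f v < f w → Good (g (f w) - g (f v)) := by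
    intro v w hvw hlt
    have hadj : H.Adj (f v) (f w) := by
      rw [hH, SimpleGraph.map_adj]
      exact ⟨v, w, hvw, rfl, rfl⟩
    exact hg.good (f v) (f w) (hM v).1.le hlt (by linarith [(hM w).2]) hadj
  have hgood : ∀ v w : V, G.Adj v w → Good (g (f w) - g (f v)) := by
    intro v w hvw
    rcases lt_trichotomy (f v) (f w) with h | h | h
    · exact hgoodlt v w hvw h
    · exact absurd (hf h) hvw.ne
    · have := (hgoodlt w v hvw.symm h).neg
      rwa [neg_sub] at this
  refine ⟨p, ⟨fun u v huv => hPinj (φ.injective huv), ?_⟩, ?_⟩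
  · -- no vertex inside an edge
    intro v w hvw u hu
    obtain ⟨a, b, ha, hb, hab, heq⟩ := hu
    have h1 : φ ((a : ℝ) • P v + (b : ℝ) • P w) = φ (P u) := by
      rw [map_add, map_smul, map_smul]
      exact heq
    have h2 : (a : ℝ) • P v + (b : ℝ) • P w = P u := φ.injective h1
    have h3 : P u - P v = (b : ℂ) * (P w - P v) := by
      rw [← h2, Complex.real_smul, Complex.real_smul]
      have h4 : (a : ℂ) = 1 - b := by
        have : (a : ℝ) = 1 - b := by linarith
        rw [this]; push_cast; ring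
      rw [h4]; ring
    rw [hsubP, hsubP] at h3
    exact not_between hK hz htr _ _ (hgood v w hvw) (hdeg w v) hb (by linarith) h3
  · have hsub : lengths G p ⊆ ((lenSet K z : Finset ℝ) : Set ℝ) := by
      rintro x ⟨v, w, hvw, rfl⟩
      have hdist : dist (p v) (p w) = ‖aeval z (hat K T (g (f w) - g (f v)))‖ := by
        rw [dist_comm]
        simp only [hp]
        rw [φ.dist_map, dist_eq_norm, hsubP]
      rw [hdist]
      exact norm_hat_good hz (hgood v w hvw) (hdeg w v)
    refine le_trans (Set.ncard_le_ncard hsub (Finset.finite_toSet _)) ?_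
    rw [Set.ncard_coe_finset]
    exact lenSet_card K z

/-- Outerplanar graphs have uniformly bounded distance number: every finite outerplanar graph has a
drawing with at most eight edge lengths, so its distance number is at most eight. -/
theorem result : ∀ (V : Type) [Fintype V] (G : SimpleGraph V), IsOuterplanar G →
    (∃ p : V → Plane, IsDrawing G p ∧ (lengths G p).ncard ≤ 8) ∧ dn G ≤ 8 := by
  intro V _ G hG
  obtain ⟨p, hp, hc⟩ := main V G hG
  exact ⟨⟨p, hp, hc⟩, le_trans (Nat.sInf_le ⟨p, hp, rfl⟩) hc⟩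

end Pool.Agent.Results.MP_4dd93e_co.AtMostEight
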